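import Pool.Agent.Lib.MP_c052b4_al.CT.Y02
import Pool.Agent.Lib.MP_c052b4_al.LK.F6
import Pool.Agent.Lib.MP_c052b4_al.TR.FpCoh

/-!
# The Farrell-Jones conjecture in low degrees: trees and integral plane automorphisms

Let `G` be a torsionfree group. Suppose that every finitely generated subgroup `H` of `G` acts on
finitely many trees without inversions and by automorphisms of the `B`-algebra `B[x, y]`, `B` a
commutative ring, such that every subgroup `C` of `H` which fixes a vertex in each of the trees and
whose elements act integrally on `B[x, y]` satisfies one of the following conditions: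

* the group rings `R[C]` over all regular rings `R` are regular coherent and `C` satisfies the
  Farrell-Jones conjecture in degrees `≤ 1`;
* `B` embeds into a field with a rational place, and `C` acts faithfully on `B[x, y]`.

Then `G` satisfies the Farrell-Jones conjecture in degrees `≤ 1`.

Here an automorphism `σ` of `B[x, y]` is integral if every polynomial lies in a finitely generated
additive subgroup which is stable under `σ`; for linear automorphisms this means that the matrix is
integral over `ℤ`, and over a ring `B` of positive characteristic it means that `σ` has finite order.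
-/

set_option autoImplicit false

namespace Pool.Agent.Results.MP_c052b4_al.IntegralAutomorphisms

open Pool.Agent.Lib.MP_c052b4_al

universe u

/-- The left module `M` has a finite resolution by finitely generated projective modules. -/
inductive FinRes (R : Type u) [Ring R] : ∀ (M : Type u) [AddCommGroup M] [Module R M], Prop
  | proj (M : Type u) [AddCommGroup M] [Module R M] (h1 : Module.Finite R M)
      (h2 : Module.Projective R M) : FinRes R M
  | step (M P : Type u) [AddCommGroup M] [Module R M] [AddCommGroup P] [Module R P]
      (f : P →ₗ[R] M) (h1 : Module.Finite R P) (h2 : Module.Projective R P)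
      (h3 : Function.Surjective f) (h4 : FinRes R (LinearMap.ker f)) : FinRes R M

/-- A ring is (left) regular if it is left Noetherian and every finitely generated left module has a
finite resolution by finitely generated projective left modules. -/
def IsRegular (R : Type u) [Ring R] : Prop :=
  IsNoetherianRing R ∧ ∀ (M : Type u) [AddCommGroup M] [Module R M], Module.Finite R M → FinRes R M

/-- The map `K₀(R) → K₀(R[G])` induced by the inclusion of the coefficients. -/
noncomputable def coeffMap (R : Type u) [Ring R] (G : Type u) [Group G] :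
    KGrp R →+ KGrp (MonoidAlgebra R G) :=
  kMap (MonoidAlgebra.singleOneRingHom : R →+* MonoidAlgebra R G)

/-- What the assembly maps `A_n`, `n ≤ 0`, being isomorphisms means for a regular ring `R`:
`K₀(R) → K₀(R[G])` is bijective and `K_{-n}(R[G]) = 0` for all `n ≥ 1`. -/
def AssemblyNonpos (R : Type u) [Ring R] (G : Type u) [Group G] : Prop :=
  Function.Bijective (coeffMap R G) ∧
    ∀ n : ℕ, 0 < n → Subsingleton ((KMinus n).obj (MonoidAlgebra R G))

/-- The conjecture in degrees `≤ 1` for all regular rings `R`:
* the assembly map `A₁ : K₁(R) ⊕ (G_ab ⊗ K₀(R)) → K₁(R[G])` is bijective;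
* `AssemblyNonpos`: `K₀(R) → K₀(R[G])` is bijective and `K_{-n}(R[G]) = 0` for all `n ≥ 1`. -/
def LowDegreeFJ (G : Type u) [Group G] : Prop :=
  ∀ (R : Type u) [Ring R], IsRegular R →
    (∃ A : HOne R G →+ K1Grp (MonoidAlgebra R G), IsAssemblyOne A ∧ Function.Bijective A) ∧
      AssemblyNonpos R G

/-- A ring is (left) regular coherent if every finitely presented left module has a finite
resolution by finitely generated projective left modules. -/
def IsRegularCoherent (C : Type u) [Ring C] : Prop :=
  ∀ (M : Type u) [AddCommGroup M] [Module C M], Module.FinitePresentation C M → FinRes C M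

/-- A group is regular coherent if its group rings over all regular rings are regular coherent. -/
def RegularCoherentGroup (G : Type u) [Group G] : Prop :=
  ∀ (R : Type u) [Ring R], IsRegular R → IsRegularCoherent (MonoidAlgebra R G)

/-- The group of all automorphisms of the `B`-algebra `B[x, y]`. -/
abbrev PlaneAut (B : Type u) [CommRing B] : Type u :=
  MvPolynomial (Fin 2) B ≃ₐ[B] MvPolynomial (Fin 2) B

/-- The automorphism `σ` of `B[x, y]` is integral: every polynomial lies in a finitely generated
additive subgroup which is stable under `σ`. -/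
def IntegralAut {B : Type u} [CommRing B] (σ : PlaneAut B) : Prop :=
  ∀ f : MvPolynomial (Fin 2) B, ∃ N : AddSubgroup (MvPolynomial (Fin 2) B),
    N.FG ∧ f ∈ N ∧ ∀ g ∈ N, σ g ∈ N

/-- `B` embeds into a field `K` with a place with values in `ℚ`: a valuation ring `O` of `K` with a
homomorphism `O → ℚ`. For instance `K = ℚ(t₁, …, t_n)`, or more generally the function field of a
variety over `ℚ` with a smooth rational point. -/
def HasRationalPlace (B : Type u) [CommRing B] : Prop :=
  ∃ (K : Type u) (_ : Field K) (φ : B →+* K) (O : ValuationSubring K),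
    Function.Injective φ ∧ Nonempty (O →+* ℚ)

/-- The group `H` acts on finitely many trees without inversions and has a homomorphism `r` to the
group of automorphisms of the `B`-algebra `B[x, y]` for some commutative ring `B`, such that every
subgroup `C` of `H` which fixes a vertex in each of the trees and for which all `r c`, `c ∈ C`, are
integral is regular coherent and satisfies `LowDegreeFJ`, or `B` embeds into a field with a rational
place and `r` is injective on `C`. -/
def TreesAndPlane (H : Type u) [Group H] : Prop :=
  ∃ (n : ℕ) (V : Fin n → Type u) (_ : ∀ i, MulAction H (V i))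
    (B : Type u) (_ : CommRing B) (r : H →* PlaneAut B),
    (∀ i, Nonempty (TreeAction H (V i))) ∧
      ∀ C : Subgroup H, (∀ i, ∃ x : V i, ∀ c ∈ C, c • x = x) → (∀ c ∈ C, IntegralAut (r c)) →
        (RegularCoherentGroup C ∧ LowDegreeFJ C) ∨
          (HasRationalPlace B ∧ ∀ c ∈ C, r c = 1 → c = 1)

theorem FinRes.exists_finProjRes {R : Type u} [Ring R] {M : Type u} [AddCommGroup M] [Module R M]
    (h : FinRes R M) : ∃ n : ℕ, FinProjRes R n M := by
  induction h with
  | proj M h1 h2 => exact ⟨0, h1, h2⟩
  | step M P f h1 h2 h3 _ ih =>
    obtain ⟨n, hn⟩ := ih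
    exact ⟨n + 1, P, inferInstance, inferInstance, f, h1, h2, h3, hn⟩

theorem finRes_of_finProjRes {R : Type u} [Ring R] : ∀ (n : ℕ) (M : Type u) [AddCommGroup M]
    [Module R M], FinProjRes R n M → FinRes R M := by
  intro n
  induction n with
  | zero =>
    intro M _ _ h
    exact FinRes.proj M h.1 h.2
  | succ n ih =>
    intro M _ _ h
    obtain ⟨P, _, _, f, h1, h2, h3, h4⟩ := h
    exact FinRes.step M P f h1 h2 h3 (ih _ h4)

theorem isRegular_iff {R : Type u} [Ring R] :
    IsRegular R ↔ Pool.Agent.Lib.MP_c052b4_al.IsRegularRing R := by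
  constructor
  · rintro ⟨h1, h2⟩
    exact ⟨h1, fun M _ _ hM => (h2 M hM).exists_finProjRes⟩
  · rintro ⟨h1, h2⟩
    refine ⟨h1, fun M _ _ hM => ?_⟩
    obtain ⟨n, hn⟩ := h2 M hM
    exact finRes_of_finProjRes n M hn

theorem regCohGroup_of {G : Type u} [Group G] (h : RegularCoherentGroup G) :
    RegCohGroup.{u} G := fun R _ hR => regCoh_of_finitePresentation
  fun M _ _ hM => (h R (isRegular_iff.2 hR) M hM).exists_finProjRes

theorem hb_of_fj {G : Type u} [Group G] (h : LowDegreeFJ G) : LK.HB.{u} G := by
  refine ⟨fun R _ hR => ?_, fun R _ hR => ?_⟩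
  · obtain ⟨A, hA, hb⟩ := (h R (isRegular_iff.2 hR)).1
    exact imA_eq_top_iff.1 (IsAsm1.imA_eq_top (A := A) ⟨hA.1, hA.2⟩ hb.2)
  · obtain ⟨A, hA, hb⟩ := (h R (isRegular_iff.2 hR)).1
    exact LK.injA_of_bijective hA hb.1

theorem fj_of_hb {G : Type u} [Group G] (h : LK.HB.{u} G) : LowDegreeFJ G := by
  intro R _ hR
  have h1 := h.onto.lowDegree R (isRegular_iff.1 hR)
  exact ⟨LK.exists_bijective h1.1 (h.inj R (isRegular_iff.1 hR)), h1.2⟩

theorem integralAut_of {B : Type u} [CommRing B] {σ : PlaneAut B} (h : CT.LocInt σ) :
    IntegralAut σ := by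
  intro f
  obtain ⟨N, hN, hf, hs⟩ := h f
  exact ⟨N.toAddSubgroup, Submodule.fg_iff_addSubgroup_fg N |>.1 hN, hf, hs⟩

/-- **Theorem.** Let `G` be a torsionfree group such that every finitely generated subgroup `H` of
`G` acts on finitely many trees without inversions and has a homomorphism
`r : H → Aut_B(B[x, y])`, where `B` is a commutative ring, such that every subgroup `C` of `H` which
fixes a vertex in each of the trees and for which all `r c`, `c ∈ C`, are integral
* is regular coherent and satisfies `LowDegreeFJ`, or
* acts faithfully on `B[x, y]` through `r`, where `B` embeds into a field with a rational place.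

Then `G` satisfies `LowDegreeFJ`: for all regular rings `R` the assembly map
`A₁ : K₁(R) ⊕ (G_ab ⊗ K₀(R)) → K₁(R[G])` is bijective, `K₀(R) → K₀(R[G])` is bijective and
`K_{-n}(R[G]) = 0` for `n ≥ 1`. -/
theorem result (G : Type u) [Group G] (htf : ∀ g : G, IsOfFinOrder g → g = 1)
    (h : ∀ H : Subgroup G, H.FG → TreesAndPlane H) : LowDegreeFJ G := by
  refine fj_of_hb (LK.HB.of_fg fun H hH => ?_)
  obtain ⟨n, V, _, B, _, r, hT, hC⟩ := h H hH
  refine CT.hb_main ((Group.fg_iff_subgroup_fg H).2 hH)
    (fun g hg => Subtype.ext (htf g ((Submonoid.isOfFinOrder_coe (H := H.toSubmonoid)).2 hg)))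
    V hT B r fun C h1 h2 => ?_
  rcases hC C h1 fun c hc => integralAut_of (h2 c hc) with h3 | ⟨⟨K, _, φ, O, hφ, hO⟩, h4⟩
  · exact Or.inl ⟨regCohGroup_of h3.1, hb_of_fj h3.2⟩
  · exact Or.inr ⟨⟨K, inferInstance, φ, hφ, O, hO⟩, h4⟩

end Pool.Agent.Results.MP_c052b4_al.IntegralAutomorphisms
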