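import Pool.Agent.Lib.MP_c052b4_al.LK.F6
import Pool.Agent.Lib.MP_c052b4_al.LK.F8
import Pool.Agent.Lib.MP_c052b4_al.TR.FpCoh
import Pool.Agent.Lib.MP_c052b4_al.TD.Cd

/-!
# The Farrell-Jones conjecture in low degrees for groups acting on trees: line stabilizers

A group `G` acts on a tree without inversions. No coherence condition is imposed on any stabilizer.
Instead, every locally periodic line has to contain a finite segment with the same pointwise
stabilizer. Then the conjecture in degrees `≤ 1` for the vertex stabilizers, the edge stabilizers and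
the groups of translations of the periodic lines implies the conjecture in degrees `≤ 1` for `G`:
all assembly maps `A_n`, `n ≤ 1`, are isomorphisms. The hypothesis on the group of translations of a
line can be replaced by the same hypothesis on the pointwise stabilizer `K` of the line if `K` lies
in `TwoDimClass`, and it holds if `K` is trivial.
-/

set_option autoImplicit false

namespace Pool.Agent.Results.MP_c052b4_al.LineStabilizers

open Pool.Agent.Lib.MP_c052b4_al

universe u v w

/-- The left module `M` has a finite resolution by finitely generated projective modules. -/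
inductive FinRes (R : Type u) [Ring R] : ∀ (M : Type u) [AddCommGroup M] [Module R M], Prop
  | proj (M : Type u) [AddCommGroup M] [Module R M] (h1 : Module.Finite R M)
      (h2 : Module.Projective R M) : FinRes R M
  | step (M P : Type u) [AddCommGroup M] [Module R M] [AddCommGroup P] [Module R P]
      (f : P →ₗ[R] M) (h1 : Module.Finite R P) (h2 : Module.Projective R P)
      (h3 : Function.Surjective f) (h4 : FinRes R (LinearMap.ker f)) : FinRes R M

/-- A ring is (left) regular if it is left Noetherian and every finitely generated left module has a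
finite resolution by finitely generated projective left modules. -/
def IsRegular (R : Type u) [Ring R] : Prop :=
  IsNoetherianRing R ∧ ∀ (M : Type u) [AddCommGroup M] [Module R M], Module.Finite R M → FinRes R M

/-- The map `K₀(R) → K₀(R[G])` induced by the inclusion of the coefficients. -/
noncomputable def coeffMap (R : Type u) [Ring R] (G : Type v) [Group G] :
    KGrp R →+ KGrp (MonoidAlgebra R G) :=
  kMap (MonoidAlgebra.singleOneRingHom : R →+* MonoidAlgebra R G)

/-- What the assembly maps `A_n`, `n ≤ 0`, being isomorphisms means for a regular ring `R`: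
`K₀(R) → K₀(R[G])` is bijective and `K_{-n}(R[G]) = 0` for all `n ≥ 1`. -/
def AssemblyNonpos (R : Type u) [Ring R] (G : Type v) [Group G] : Prop :=
  Function.Bijective (coeffMap R G) ∧
    ∀ n : ℕ, 0 < n → Subsingleton ((KMinus n).obj (MonoidAlgebra R G))

/-- The conjecture in degrees `≤ 1` for all regular rings `R`:
* the assembly map `A₁ : K₁(R) ⊕ (G_ab ⊗ K₀(R)) → K₁(R[G])` is bijective;
* `AssemblyNonpos`: `K₀(R) → K₀(R[G])` is bijective and `K_{-n}(R[G]) = 0` for all `n ≥ 1`. -/
def LowDegreeFJ (G : Type v) [Group G] : Prop :=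
  ∀ (R : Type u) [Ring R], IsRegular R →
    (∃ A : HOne R G →+ K1Grp (MonoidAlgebra R G), IsAssemblyOne A ∧ Function.Bijective A) ∧
      AssemblyNonpos R G

/-- The assembly map `A₁ : K₁(R) ⊕ (G_ab ⊗ K₀(R)) → K₁(R[G])` is surjective for all regular rings
`R`. -/
def AOneOnto (G : Type v) [Group G] : Prop :=
  ∀ (R : Type u) [Ring R], IsRegular R →
    ∃ A : HOne R G →+ K1Grp (MonoidAlgebra R G), IsAssemblyOne A ∧ Function.Surjective A

/-- A ring is (left) regular coherent if every finitely presented left module has a finite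
resolution by finitely generated projective left modules. -/
def IsRegularCoherent (C : Type u) [Ring C] : Prop :=
  ∀ (M : Type u) [AddCommGroup M] [Module C M], Module.FinitePresentation C M → FinRes C M

/-- A group is regular if its group rings over all regular rings are regular. -/
def RegularGroup (G : Type v) [Group G] : Prop :=
  ∀ (R : Type u) [Ring R], IsRegular R → IsRegular (MonoidAlgebra R G)

/-- A group is regular coherent if its group rings over all regular rings are regular coherent. -/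
def RegularCoherentGroup (G : Type v) [Group G] : Prop :=
  ∀ (R : Type u) [Ring R], IsRegular R → IsRegularCoherent (MonoidAlgebra R G)

/-- A resolution `0 → P₂ → P₁ → P₀ → ℤ → 0` of the trivial module `ℤ` over `ℤ[H]`. -/
structure Resolution (H : Type v) [Group H] (P₀ P₁ P₂ : Type v) [AddCommGroup P₀]
    [AddCommGroup P₁] [AddCommGroup P₂] [Module (MonoidAlgebra ℤ H) P₀]
    [Module (MonoidAlgebra ℤ H) P₁] [Module (MonoidAlgebra ℤ H) P₂] where
  d₁ : P₁ →ₗ[MonoidAlgebra ℤ H] P₀
  d₂ : P₂ →ₗ[MonoidAlgebra ℤ H] P₁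
  ε : P₀ →+ ℤ
  invariant : ∀ (h : H) (x : P₀), ε ((MonoidAlgebra.single h 1 : MonoidAlgebra ℤ H) • x) = ε x
  surjective : Function.Surjective ε
  exact₀ : ∀ x, ε x = 0 ↔ ∃ y, d₁ y = x
  exact₁ : ∀ x, d₁ x = 0 ↔ ∃ y, d₂ y = x
  injective : Function.Injective d₂

/-- A resolution `0 → ℤ[U₂] → ℤ[U₁] → ℤ[U₀] → ℤ → 0` of the trivial module `ℤ` by the permutation
modules of the `H`-sets `U₂`, `U₁`, `U₀`, where `ℤ[U₀] → ℤ` is the sum of the coefficients. -/
structure PermutationResolution (H : Type v) [Group H] (U₀ U₁ U₂ : Type v) [MulAction H U₀]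
    [MulAction H U₁] [MulAction H U₂] where
  d₁ : (U₁ →₀ ℤ) →ₗ[ℤ] (U₀ →₀ ℤ)
  d₂ : (U₂ →₀ ℤ) →ₗ[ℤ] (U₁ →₀ ℤ)
  equivariant₁ : ∀ (h : H) (x : U₁ →₀ ℤ),
    d₁ (x.mapDomain fun u => h • u) = (d₁ x).mapDomain fun u => h • u
  equivariant₂ : ∀ (h : H) (x : U₂ →₀ ℤ),
    d₂ (x.mapDomain fun u => h • u) = (d₂ x).mapDomain fun u => h • u
  nonempty : Nonempty U₀
  exact₀ : ∀ x : U₀ →₀ ℤ, (x.sum fun _ n => n) = 0 ↔ ∃ y, d₁ y = x
  exact₁ : ∀ x : U₁ →₀ ℤ, d₁ x = 0 ↔ ∃ y, d₂ y = x
  injective : Function.Injective d₂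

/-- The smallest class of groups which contains
* the groups `H` of cohomological dimension at most two (there is a projective resolution
  `0 → P₂ → P₁ → P₀ → ℤ → 0` over `ℤ[H]`),
* the regular coherent groups,
* the groups `H` with a resolution `0 → ℤ[U₂] → ℤ[U₁] → ℤ[U₀] → ℤ → 0` by permutation modules (for
  instance the cellular chains of an acyclic `H`-complex of dimension two) such that the stabilizers
  of the elements of `U₀` are in the class, those of `U₁` are regular coherent and those of `U₂` are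
  regular,

and is closed under subgroups and directed unions. -/
inductive TwoDimClass : ∀ (G : Type v) [Group G], Prop
  | cd (H : Type v) [Group H] (P₀ P₁ P₂ : Type v) [AddCommGroup P₀] [AddCommGroup P₁]
      [AddCommGroup P₂] [Module (MonoidAlgebra ℤ H) P₀] [Module (MonoidAlgebra ℤ H) P₁]
      [Module (MonoidAlgebra ℤ H) P₂] (h₀ : Module.Projective (MonoidAlgebra ℤ H) P₀)
      (h₁ : Module.Projective (MonoidAlgebra ℤ H) P₁)
      (h₂ : Module.Projective (MonoidAlgebra ℤ H) P₂) (P : Resolution H P₀ P₁ P₂) :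
      TwoDimClass H
  | coh (H : Type v) [Group H] (hH : RegularCoherentGroup.{u} H) : TwoDimClass H
  | complex (H : Type v) [Group H] (U₀ U₁ U₂ : Type v) [MulAction H U₀] [MulAction H U₁]
      [MulAction H U₂] (P : PermutationResolution H U₀ U₁ U₂)
      (h₀ : ∀ x : U₀, TwoDimClass (MulAction.stabilizer H x))
      (h₁ : ∀ x : U₁, RegularCoherentGroup.{u} (MulAction.stabilizer H x))
      (h₂ : ∀ x : U₂, RegularGroup.{u} (MulAction.stabilizer H x)) : TwoDimClass H
  | sub (G H : Type v) [Group G] [Group H] (f : H →* G) (hf : Function.Injective f)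
      (hG : TwoDimClass G) : TwoDimClass H
  | union (G : Type v) [Group G] (S : Set (Subgroup G)) (hne : S.Nonempty)
      (hdir : DirectedOn (· ≤ ·) S) (hcov : ∀ g : G, ∃ H ∈ S, g ∈ H)
      (hS : ∀ H ∈ S, TwoDimClass H) : TwoDimClass G

section Lines

variable {G : Type v} [Group G] {V : Type w} [MulAction G V]

/-- The lines of the tree: bi-infinite sequences of vertices such that consecutive vertices are
adjacent and there is no backtracking. -/
def IsLineOf (T : TreeAction G V) (ℓ : ℤ → V) : Prop :=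
  ∀ n : ℤ, T.graph.Adj (ℓ n) (ℓ (n + 1)) ∧ ℓ (n + 2) ≠ ℓ n

/-- The line `ℓ` is locally periodic: for some `p ≥ 1` every finite segment of `ℓ` is shifted by `p`
along `ℓ` by some element of `G` (which may depend on the segment). -/
def LocallyPeriodic (G : Type v) [Group G] {V : Type w} [MulAction G V] (ℓ : ℤ → V) : Prop :=
  ∃ p : ℕ, 1 ≤ p ∧ ∀ N : ℕ, ∃ g : G, ∀ n : ℤ, n.natAbs ≤ N → g • ℓ n = ℓ (n + p)

/-- Some finite segment of `ℓ` has the same pointwise stabilizer as the whole of `ℓ`. -/
def HasStableSegment (G : Type v) [Group G] {V : Type w} [MulAction G V] (ℓ : ℤ → V) : Prop :=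
  ∃ a b : ℤ, ∀ g : G, (∀ n, a ≤ n → n ≤ b → g • ℓ n = ℓ n) → ∀ n, g • ℓ n = ℓ n

/-- `g` translates the line `ℓ` by `m`. -/
def Translates (g : G) (m : ℤ) (ℓ : ℤ → V) : Prop := ∀ n, g • ℓ n = ℓ (n + m)

/-- The group of all elements of `G` which translate the line `ℓ` (possibly by `0`). -/
def translations (G : Type v) [Group G] {V : Type w} [MulAction G V] (ℓ : ℤ → V) :
    Subgroup G where
  carrier := {g | ∃ m : ℤ, Translates g m ℓ}
  mul_mem' := (Trl G ℓ).mul_mem'
  one_mem' := (Trl G ℓ).one_mem'
  inv_mem' := (Trl G ℓ).inv_mem'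

/-- The group of all elements of `G` which fix all vertices of the line `ℓ`. -/
def fixer (G : Type v) [Group G] {V : Type w} [MulAction G V] (ℓ : ℤ → V) : Subgroup G where
  carrier := {g | ∀ n, g • ℓ n = ℓ n}
  mul_mem' := fun {a b} ha hb n => by rw [mul_smul, hb n, ha n]
  one_mem' := fun n => one_smul G (ℓ n)
  inv_mem' := fun {a} ha n => by rw [inv_smul_eq_iff, ha n]

theorem fixer_eq (G : Type v) [Group G] {V : Type w} [MulAction G V] (ℓ : ℤ → V) :
    fixer G ℓ = LK.fixL G ℓ := by
  ext g
  exact (LK.mem_fixL).symm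

end Lines

theorem FinRes.exists_finProjRes {R : Type u} [Ring R] {M : Type u} [AddCommGroup M] [Module R M]
    (h : FinRes R M) : ∃ n : ℕ, FinProjRes R n M := by
  induction h with
  | proj M h1 h2 => exact ⟨0, h1, h2⟩
  | step M P f h1 h2 h3 _ ih =>
    obtain ⟨n, hn⟩ := ih
    exact ⟨n + 1, P, inferInstance, inferInstance, f, h1, h2, h3, hn⟩

theorem finRes_of_finProjRes {R : Type u} [Ring R] : ∀ (n : ℕ) (M : Type u) [AddCommGroup M]
    [Module R M], FinProjRes R n M → FinRes R M := by
  intro n
  induction n with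
  | zero =>
    intro M _ _ h
    exact FinRes.proj M h.1 h.2
  | succ n ih =>
    intro M _ _ h
    obtain ⟨P, _, _, f, h1, h2, h3, h4⟩ := h
    exact FinRes.step M P f h1 h2 h3 (ih _ h4)

theorem isRegular_iff {R : Type u} [Ring R] :
    IsRegular R ↔ Pool.Agent.Lib.MP_c052b4_al.IsRegularRing R := by
  constructor
  · rintro ⟨h1, h2⟩
    exact ⟨h1, fun M _ _ hM => (h2 M hM).exists_finProjRes⟩
  · rintro ⟨h1, h2⟩
    refine ⟨h1, fun M _ _ hM => ?_⟩
    obtain ⟨n, hn⟩ := h2 M hM
    exact finRes_of_finProjRes n M hn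

theorem regCohGroup_of {G : Type v} [Group G] (h : RegularCoherentGroup.{u} G) :
    RegCohGroup.{u} G := fun R _ hR => regCoh_of_finitePresentation
  fun M _ _ hM => (h R (isRegular_iff.2 hR) M hM).exists_finProjRes

theorem regGroup_of {G : Type v} [Group G] (h : RegularGroup.{u} G) : RegGroup.{u} G :=
  fun R _ hR => isRegular_iff.1 (h R (isRegular_iff.2 hR))

theorem tdcl_of_class {G : Type v} [Group G] (h : TwoDimClass.{u} G) : TDCl.{u} G := by
  induction h with
  | cd H P₀ P₁ P₂ h₀ h₁ h₂ P =>
    exact TDCl.cd_le_two (H := H) (P₀ := P₀) (P₁ := P₁) (P₂ := P₂)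
      ⟨P.d₁, P.d₂, P.ε, P.invariant, P.surjective, P.exact₀, P.exact₁, P.injective⟩
  | coh H hH => exact TDCl.coh H (regCohGroup_of hH)
  | complex H U₀ U₁ U₂ P _ h₁ h₂ ih =>
    exact TDCl.two H U₀ U₁ U₂
      ⟨P.d₁, P.d₂, P.equivariant₁, P.equivariant₂, P.nonempty, P.exact₀, P.exact₁, P.injective⟩
      ih (fun x => regCohGroup_of (h₁ x)) (fun x => regGroup_of (h₂ x))
  | sub G H f hf _ ih => exact TDCl.sub G H f hf ih
  | union G S hne hdir hcov _ ih => exact TDCl.union G S hne hdir hcov ih

theorem hk_of_onto {G : Type v} [Group G] (h : AOneOnto.{u} G) : HK.{u} G := by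
  intro R _ hR
  obtain ⟨A, hA, hs⟩ := h R (isRegular_iff.2 hR)
  exact imA_eq_top_iff.1 (IsAsm1.imA_eq_top (A := A) ⟨hA.1, hA.2⟩ hs)

theorem LowDegreeFJ.onto {G : Type v} [Group G] (h : LowDegreeFJ.{u} G) : AOneOnto.{u} G := by
  intro R _ hR
  obtain ⟨A, hA, hb⟩ := (h R hR).1
  exact ⟨A, hA, hb.2⟩

theorem hb_of_fj {G : Type v} [Group G] (h : LowDegreeFJ.{u} G) : LK.HB.{u} G := by
  refine ⟨hk_of_onto h.onto, fun R _ hR => ?_⟩
  obtain ⟨A, hA, hb⟩ := (h R (isRegular_iff.2 hR)).1
  exact LK.injA_of_bijective hA hb.1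

theorem fj_of_hb {G : Type v} [Group G] (h : LK.HB.{u} G) : LowDegreeFJ.{u} G := by
  intro R _ hR
  have h1 := h.onto.lowDegree R (isRegular_iff.1 hR)
  exact ⟨LK.exists_bijective h1.1 (h.inj R (isRegular_iff.1 hR)), h1.2⟩

/-- The group of all translations of a line, if the pointwise stabilizer of the line is in the class
`TwoDimClass`. -/
theorem hk_translations {G : Type v} [Group G] {V : Type w} [MulAction G V] (T : TreeAction G V)
    {ℓ : ℤ → V} (hℓ : IsLineOf T ℓ) (h : AOneOnto.{u} (fixer G ℓ)) (h' : TwoDimClass.{u} (fixer G ℓ)) :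
    HK.{u} (Trl G ℓ) := by
  have h1 := hk_of_onto h
  have h2 := tdcl_of_class h'
  rw [fixer_eq] at h1 h2
  exact LK.hk_trl T.tree hℓ h1 h2

/-- **Theorem.** Let the group `G` act on a tree without inversions. Suppose that
* every locally periodic line has a finite segment with the same pointwise stabilizer,
* every vertex stabilizer satisfies `LowDegreeFJ`,
* `A₁` is onto (for all regular rings) for every edge stabilizer,
* for every line `ℓ` which is translated by a nonzero amount by some element of `G`, either `A₁` is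
  onto for the group of all translations of `ℓ`, or the pointwise stabilizer of `ℓ` lies in
  `TwoDimClass` and `A₁` is onto for it (for instance if this stabilizer is trivial).

Then `G` satisfies `LowDegreeFJ`: for all regular rings `R` the assembly map
`A₁ : K₁(R) ⊕ (G_ab ⊗ K₀(R)) → K₁(R[G])` is bijective, `K₀(R) → K₀(R[G])` is bijective and
`K_{-n}(R[G]) = 0` for `n ≥ 1`. -/
theorem result (G : Type v) [Group G] (V : Type w) [MulAction G V] (T : TreeAction G V)
    (hS : ∀ ℓ : ℤ → V, IsLineOf T ℓ → LocallyPeriodic G ℓ → HasStableSegment G ℓ)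
    (hV : ∀ x : V, LowDegreeFJ.{u} (MulAction.stabilizer G x))
    (hE : ∀ x y : V, T.graph.Adj x y →
      AOneOnto.{u} ↥(MulAction.stabilizer G x ⊓ MulAction.stabilizer G y))
    (hL : ∀ ℓ : ℤ → V, IsLineOf T ℓ → (∃ (g : G) (m : ℤ), m ≠ 0 ∧ Translates g m ℓ) →
      AOneOnto.{u} (translations G ℓ) ∨
        (AOneOnto.{u} (fixer G ℓ) ∧ TwoDimClass.{u} (fixer G ℓ))) : LowDegreeFJ.{u} G :=
  fj_of_hb (LK.hb_of_tree_lines T (fun x => hb_of_fj (hV x)) (fun x y hxy => hk_of_onto (hE x y hxy))
    (fun ℓ h1 h2 => hS ℓ h1 h2) fun ℓ h1 h2 => (hL ℓ h1 h2).elim (fun h => hk_of_onto h)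
      (fun h => hk_translations T h1 h.1 h.2))

end Pool.Agent.Results.MP_c052b4_al.LineStabilizers
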