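import Pool.Agent.Lib.MP_c052b4_al.TD.Cd
import Pool.Agent.Lib.MP_c052b4_al.TD.KReg
import Pool.Agent.Lib.MP_c052b4_al.TD.Rel5
import Pool.Agent.Lib.MP_c052b4_al.TR.FpCoh

/-!
# The group rings of two-dimensional groups are `K₁`-regular

For all groups `G` of cohomological dimension at most two, and for all groups built from these by
actions on complexes of dimension two and on trees, the group rings `RG` over all regular rings `R`
are `K_i`-regular for all `i ≤ 1`: the maps `K_i(RG) → K_i(RG[X_1, …, X_m])` are isomorphisms. In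
particular the groups `NK_i(RG)`, `i ≤ 1`, vanish.
-/

set_option autoImplicit false

namespace Pool.Agent.Results.MP_c052b4_al.NilVanishing

open Pool.Agent.Lib.MP_c052b4_al

universe u v w

/-- The left module `M` has a finite resolution by finitely generated projective modules. -/
inductive FinRes (R : Type u) [Ring R] : ∀ (M : Type u) [AddCommGroup M] [Module R M], Prop
  | proj (M : Type u) [AddCommGroup M] [Module R M] (h1 : Module.Finite R M)
      (h2 : Module.Projective R M) : FinRes R M
  | step (M P : Type u) [AddCommGroup M] [Module R M] [AddCommGroup P] [Module R P]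
      (f : P →ₗ[R] M) (h1 : Module.Finite R P) (h2 : Module.Projective R P)
      (h3 : Function.Surjective f) (h4 : FinRes R (LinearMap.ker f)) : FinRes R M

/-- A ring is (left) regular if it is left Noetherian and every finitely generated left module has a
finite resolution by finitely generated projective left modules. -/
def IsRegular (R : Type u) [Ring R] : Prop :=
  IsNoetherianRing R ∧ ∀ (M : Type u) [AddCommGroup M] [Module R M], Module.Finite R M → FinRes R M

/-- A ring is (left) regular coherent if every finitely presented left module has a finite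
resolution by finitely generated projective left modules. -/
def IsRegularCoherent (C : Type u) [Ring C] : Prop :=
  ∀ (M : Type u) [AddCommGroup M] [Module C M], Module.FinitePresentation C M → FinRes C M

/-- A group is regular if its group rings over all regular rings are regular. -/
def RegularGroup (G : Type v) [Group G] : Prop :=
  ∀ (R : Type u) [Ring R], IsRegular R → IsRegular (MonoidAlgebra R G)

/-- A group is regular coherent if its group rings over all regular rings are regular coherent. -/
def RegularCoherentGroup (G : Type v) [Group G] : Prop :=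
  ∀ (R : Type u) [Ring R], IsRegular R → IsRegularCoherent (MonoidAlgebra R G)

/-- A resolution `0 → P₂ → P₁ → P₀ → ℤ → 0` of the trivial module `ℤ` over `ℤ[H]`. -/
structure Resolution (H : Type v) [Group H] (P₀ P₁ P₂ : Type v) [AddCommGroup P₀]
    [AddCommGroup P₁] [AddCommGroup P₂] [Module (MonoidAlgebra ℤ H) P₀]
    [Module (MonoidAlgebra ℤ H) P₁] [Module (MonoidAlgebra ℤ H) P₂] where
  d₁ : P₁ →ₗ[MonoidAlgebra ℤ H] P₀
  d₂ : P₂ →ₗ[MonoidAlgebra ℤ H] P₁
  ε : P₀ →+ ℤ
  invariant : ∀ (h : H) (x : P₀), ε ((MonoidAlgebra.single h 1 : MonoidAlgebra ℤ H) • x) = ε x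
  surjective : Function.Surjective ε
  exact₀ : ∀ x, ε x = 0 ↔ ∃ y, d₁ y = x
  exact₁ : ∀ x, d₁ x = 0 ↔ ∃ y, d₂ y = x
  injective : Function.Injective d₂

/-- A resolution `0 → ℤ[U₂] → ℤ[U₁] → ℤ[U₀] → ℤ → 0` of the trivial module `ℤ` by the permutation
modules of the `H`-sets `U₂`, `U₁`, `U₀`, where `ℤ[U₀] → ℤ` is the sum of the coefficients. -/
structure PermutationResolution (H : Type v) [Group H] (U₀ U₁ U₂ : Type v) [MulAction H U₀]
    [MulAction H U₁] [MulAction H U₂] where
  d₁ : (U₁ →₀ ℤ) →ₗ[ℤ] (U₀ →₀ ℤ)
  d₂ : (U₂ →₀ ℤ) →ₗ[ℤ] (U₁ →₀ ℤ)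
  equivariant₁ : ∀ (h : H) (x : U₁ →₀ ℤ),
    d₁ (x.mapDomain fun u => h • u) = (d₁ x).mapDomain fun u => h • u
  equivariant₂ : ∀ (h : H) (x : U₂ →₀ ℤ),
    d₂ (x.mapDomain fun u => h • u) = (d₂ x).mapDomain fun u => h • u
  nonempty : Nonempty U₀
  exact₀ : ∀ x : U₀ →₀ ℤ, (x.sum fun _ n => n) = 0 ↔ ∃ y, d₁ y = x
  exact₁ : ∀ x : U₁ →₀ ℤ, d₁ x = 0 ↔ ∃ y, d₂ y = x
  injective : Function.Injective d₂

/-- The smallest class of groups which contains
* the groups `H` of cohomological dimension at most two (there is a projective resolution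
  `0 → P₂ → P₁ → P₀ → ℤ → 0` over `ℤ[H]`),
* the regular coherent groups,
* the groups `H` with a resolution `0 → ℤ[U₂] → ℤ[U₁] → ℤ[U₀] → ℤ → 0` by permutation modules (for
  instance the cellular chains of an acyclic `H`-complex of dimension two) such that the stabilizers
  of the elements of `U₀` are in the class, those of `U₁` are regular coherent and those of `U₂` are
  regular,

and is closed under subgroups and directed unions. -/
inductive TwoDimClass : ∀ (G : Type v) [Group G], Prop
  | cd (H : Type v) [Group H] (P₀ P₁ P₂ : Type v) [AddCommGroup P₀] [AddCommGroup P₁]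
      [AddCommGroup P₂] [Module (MonoidAlgebra ℤ H) P₀] [Module (MonoidAlgebra ℤ H) P₁]
      [Module (MonoidAlgebra ℤ H) P₂] (h₀ : Module.Projective (MonoidAlgebra ℤ H) P₀)
      (h₁ : Module.Projective (MonoidAlgebra ℤ H) P₁)
      (h₂ : Module.Projective (MonoidAlgebra ℤ H) P₂) (P : Resolution H P₀ P₁ P₂) :
      TwoDimClass H
  | coh (H : Type v) [Group H] (hH : RegularCoherentGroup.{u} H) : TwoDimClass H
  | complex (H : Type v) [Group H] (U₀ U₁ U₂ : Type v) [MulAction H U₀] [MulAction H U₁]
      [MulAction H U₂] (P : PermutationResolution H U₀ U₁ U₂)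
      (h₀ : ∀ x : U₀, TwoDimClass (MulAction.stabilizer H x))
      (h₁ : ∀ x : U₁, RegularCoherentGroup.{u} (MulAction.stabilizer H x))
      (h₂ : ∀ x : U₂, RegularGroup.{u} (MulAction.stabilizer H x)) : TwoDimClass H
  | sub (G H : Type v) [Group G] [Group H] (f : H →* G) (hf : Function.Injective f)
      (hG : TwoDimClass G) : TwoDimClass H
  | union (G : Type v) [Group G] (S : Set (Subgroup G)) (hne : S.Nonempty)
      (hdir : DirectedOn (· ≤ ·) S) (hcov : ∀ g : G, ∃ H ∈ S, g ∈ H)
      (hS : ∀ H ∈ S, TwoDimClass H) : TwoDimClass G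

/-- The ray condition: for every ray `ρ` of the tree (consecutive vertices are adjacent and there is
no backtracking) the pointwise stabilizer of some initial segment `ρ 0, …, ρ n` lies in the class
`TwoDimClass`. -/
def RayCondition {G : Type v} [Group G] {V : Type w} [MulAction G V] (T : TreeAction G V) : Prop :=
  ∀ ρ : ℕ → V, (∀ n, T.graph.Adj (ρ n) (ρ (n + 1))) → (∀ n, ρ (n + 2) ≠ ρ n) →
    ∃ n : ℕ, TwoDimClass.{u} ↥(⨅ i : Fin (n + 1), MulAction.stabilizer G (ρ i))

/-- The smallest class of groups which contains `TwoDimClass` and is closed under subgroups,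
directed unions and tree actions (without inversions) with the ray condition and with vertex
stabilizers in the class. -/
inductive NilClass : ∀ (G : Type v) [Group G], Prop
  | two (G : Type v) [Group G] (hG : TwoDimClass.{u} G) : NilClass G
  | sub (G H : Type v) [Group G] [Group H] (f : H →* G) (hf : Function.Injective f)
      (hG : NilClass G) : NilClass H
  | union (G : Type v) [Group G] (S : Set (Subgroup G)) (hne : S.Nonempty)
      (hdir : DirectedOn (· ≤ ·) S) (hcov : ∀ g : G, ∃ H ∈ S, g ∈ H)
      (hS : ∀ H ∈ S, NilClass H) : NilClass G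
  | tree (G : Type v) [Group G] (V : Type v) [MulAction G V] (T : TreeAction G V)
      (hV : ∀ x : V, NilClass (MulAction.stabilizer G x))
      (hR : RayCondition.{u} T) : NilClass G

/-- The ring `A` is `K_i`-regular for all `i ≤ 1`: for every number `m` of variables the inclusion
of the constants `A → A[X_1, …, X_m]` induces isomorphisms `K_i(A) → K_i(A[X_1, …, X_m])` for all
`i ≤ 1`. Here `A[X_1, …, X_m]` is the monoid ring `AddMonoidAlgebra A (Fin m →₀ ℕ)`. -/
def KOneRegular (A : Type u) [Ring A] : Prop :=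
  ∀ m : ℕ,
    Function.Bijective (k1Map
      (AddMonoidAlgebra.singleZeroRingHom : A →+* AddMonoidAlgebra A (Fin m →₀ ℕ))) ∧
    ∀ n : ℕ, Function.Bijective ((KMinus n).map
      (AddMonoidAlgebra.singleZeroRingHom : A →+* AddMonoidAlgebra A (Fin m →₀ ℕ)))

theorem FinRes.exists_finProjRes {R : Type u} [Ring R] {M : Type u} [AddCommGroup M] [Module R M]
    (h : FinRes R M) : ∃ n : ℕ, FinProjRes R n M := by
  induction h with
  | proj M h1 h2 => exact ⟨0, h1, h2⟩
  | step M P f h1 h2 h3 _ ih =>
    obtain ⟨n, hn⟩ := ih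
    exact ⟨n + 1, P, inferInstance, inferInstance, f, h1, h2, h3, hn⟩

theorem finRes_of_finProjRes {R : Type u} [Ring R] : ∀ (n : ℕ) (M : Type u) [AddCommGroup M]
    [Module R M], FinProjRes R n M → FinRes R M := by
  intro n
  induction n with
  | zero =>
    intro M _ _ h
    exact FinRes.proj M h.1 h.2
  | succ n ih =>
    intro M _ _ h
    obtain ⟨P, _, _, f, h1, h2, h3, h4⟩ := h
    exact FinRes.step M P f h1 h2 h3 (ih _ h4)

theorem isRegular_iff {R : Type u} [Ring R] :
    IsRegular R ↔ Pool.Agent.Lib.MP_c052b4_al.IsRegularRing R := by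
  constructor
  · rintro ⟨h1, h2⟩
    exact ⟨h1, fun M _ _ hM => (h2 M hM).exists_finProjRes⟩
  · rintro ⟨h1, h2⟩
    refine ⟨h1, fun M _ _ hM => ?_⟩
    obtain ⟨n, hn⟩ := h2 M hM
    exact finRes_of_finProjRes n M hn

theorem regCohGroup_of {G : Type v} [Group G] (h : RegularCoherentGroup.{u} G) :
    RegCohGroup.{u} G := fun R _ hR => regCoh_of_finitePresentation
  fun M _ _ hM => (h R (isRegular_iff.2 hR) M hM).exists_finProjRes

theorem regGroup_of {G : Type v} [Group G] (h : RegularGroup.{u} G) : RegGroup.{u} G :=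
  fun R _ hR => isRegular_iff.1 (h R (isRegular_iff.2 hR))

theorem tdcl_of_class {G : Type v} [Group G] (h : TwoDimClass.{u} G) : TDCl.{u} G := by
  induction h with
  | cd H P₀ P₁ P₂ h₀ h₁ h₂ P =>
    exact TDCl.cd_le_two (H := H) (P₀ := P₀) (P₁ := P₁) (P₂ := P₂)
      ⟨P.d₁, P.d₂, P.ε, P.invariant, P.surjective, P.exact₀, P.exact₁, P.injective⟩
  | coh H hH => exact TDCl.coh H (regCohGroup_of hH)
  | complex H U₀ U₁ U₂ P _ h₁ h₂ ih =>
    exact TDCl.two H U₀ U₁ U₂
      ⟨P.d₁, P.d₂, P.equivariant₁, P.equivariant₂, P.nonempty, P.exact₀, P.exact₁, P.injective⟩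
      ih (fun x => regCohGroup_of (h₁ x)) (fun x => regGroup_of (h₂ x))
  | sub G H f hf _ ih => exact TDCl.sub G H f hf ih
  | union G S hne hdir hcov _ ih => exact TDCl.union G S hne hdir hcov ih

theorem rayCondT_of {G : Type v} [Group G] {V : Type w} [MulAction G V] {T : TreeAction G V}
    (h : RayCondition.{u} T) : RayCondT.{u} T := by
  intro ρ h1 h2
  obtain ⟨n, hn⟩ := h ρ h1 h2
  exact ⟨n, tdcl_of_class hn⟩

theorem ncl_of_class {G : Type v} [Group G] (h : NilClass.{u} G) : NCl.{u} G := by
  induction h with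
  | two G hG => exact NCl.base G (tdcl_of_class hG)
  | sub G H f hf _ ih => exact NCl.sub G H f hf ih
  | union G S hne hdir hcov _ ih => exact NCl.union G S hne hdir hcov ih
  | tree G V T _ hR ih => exact NCl.tree G V T ih (rayCondT_of hR)

theorem bijective_k1Map {S T : Type u} [Ring S] [Ring T] (f : S →+* T)
    (h : Function.Bijective (KOne.map f)) : Function.Bijective (k1Map f) := by
  refine ⟨fun x y hxy => ?_, (k1Map_surjective_iff f).2 h.2⟩
  apply phi_injective
  apply h.1
  rw [← phi_map, ← phi_map, hxy]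

/-- **Theorem.** Let `G` be a group of cohomological dimension at most two or, more generally, a
group in the class `NilClass`. Then for every regular ring `R` the group ring `RG` is
`K_i`-regular for all `i ≤ 1`: the maps `K_i(RG) → K_i(RG[X_1, …, X_m])` are isomorphisms for all
`i ≤ 1` and all `m`. -/
theorem result (G : Type v) [Group G] (hG : NilClass.{u} G) (R : Type u) [Ring R]
    (hR : IsRegular R) : KOneRegular (MonoidAlgebra R G) := fun m =>
  ⟨bijective_k1Map _ ((ncl_of_class hG).nv1.bijective_kOne_cN (isRegular_iff.1 hR) m),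
    fun n => (ncl_of_class hG).nv1.bijective_kMinus_cN (isRegular_iff.1 hR) n m⟩

end Pool.Agent.Results.MP_c052b4_al.NilVanishing
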