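import Pool.Agent.Lib.MP_c052b4_al.LK.F5
import Pool.Agent.Lib.MP_c052b4_al.TD.Cd
import Pool.Agent.Lib.MP_c052b4_al.TR.FpCoh

/-!
# The Farrell-Jones conjecture in low degrees for groups acting on trees

If a group acts on a tree without inversions, if all vertex stabilizers satisfy the conjecture in
degrees `≤ 1` for all regular rings, if `A₁` is surjective for the edge stabilizers, and if every ray
of the tree has an initial segment whose pointwise stabilizer is built from groups of cohomological
dimension at most two and regular coherent groups, then the group satisfies the conjecture in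
degrees `≤ 1` as well: all assembly maps `A_n`, `n ≤ 1`, are isomorphisms. This contains Waldhausen's theorem (regular coherent edge stabilizers) and
the case of acylindrical actions.
-/

set_option autoImplicit false

namespace Pool.Agent.Results.MP_c052b4_al.TreeActions

open Pool.Agent.Lib.MP_c052b4_al

universe u v w

/-- The left module `M` has a finite resolution by finitely generated projective modules. -/
inductive FinRes (R : Type u) [Ring R] : ∀ (M : Type u) [AddCommGroup M] [Module R M], Prop
  | proj (M : Type u) [AddCommGroup M] [Module R M] (h1 : Module.Finite R M)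
      (h2 : Module.Projective R M) : FinRes R M
  | step (M P : Type u) [AddCommGroup M] [Module R M] [AddCommGroup P] [Module R P]
      (f : P →ₗ[R] M) (h1 : Module.Finite R P) (h2 : Module.Projective R P)
      (h3 : Function.Surjective f) (h4 : FinRes R (LinearMap.ker f)) : FinRes R M

/-- A ring is (left) regular if it is left Noetherian and every finitely generated left module has a
finite resolution by finitely generated projective left modules. -/
def IsRegular (R : Type u) [Ring R] : Prop :=
  IsNoetherianRing R ∧ ∀ (M : Type u) [AddCommGroup M] [Module R M], Module.Finite R M → FinRes R M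

/-- The map `K₀(R) → K₀(R[G])` induced by the inclusion of the coefficients. -/
noncomputable def coeffMap (R : Type u) [Ring R] (G : Type v) [Group G] :
    KGrp R →+ KGrp (MonoidAlgebra R G) :=
  kMap (MonoidAlgebra.singleOneRingHom : R →+* MonoidAlgebra R G)

/-- What the assembly maps `A_n`, `n ≤ 0`, being isomorphisms means for a regular ring `R`:
`K₀(R) → K₀(R[G])` is bijective and `K_{-n}(R[G]) = 0` for all `n ≥ 1`. -/
def AssemblyNonpos (R : Type u) [Ring R] (G : Type v) [Group G] : Prop :=
  Function.Bijective (coeffMap R G) ∧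
    ∀ n : ℕ, 0 < n → Subsingleton ((KMinus n).obj (MonoidAlgebra R G))

/-- The conjecture in degrees `≤ 1` for all regular rings `R`:
* the assembly map `A₁ : K₁(R) ⊕ (G_ab ⊗ K₀(R)) → K₁(R[G])` is bijective;
* `AssemblyNonpos`: `K₀(R) → K₀(R[G])` is bijective and `K_{-n}(R[G]) = 0` for all `n ≥ 1`. -/
def LowDegreeFJ (G : Type v) [Group G] : Prop :=
  ∀ (R : Type u) [Ring R], IsRegular R →
    (∃ A : HOne R G →+ K1Grp (MonoidAlgebra R G), IsAssemblyOne A ∧ Function.Bijective A) ∧
      AssemblyNonpos R G

/-- The assembly map `A₁ : K₁(R) ⊕ (G_ab ⊗ K₀(R)) → K₁(R[G])` is surjective for all regular rings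
`R`. -/
def AOneOnto (G : Type v) [Group G] : Prop :=
  ∀ (R : Type u) [Ring R], IsRegular R →
    ∃ A : HOne R G →+ K1Grp (MonoidAlgebra R G), IsAssemblyOne A ∧ Function.Surjective A

/-- A ring is (left) regular coherent if every finitely presented left module has a finite
resolution by finitely generated projective left modules. -/
def IsRegularCoherent (C : Type u) [Ring C] : Prop :=
  ∀ (M : Type u) [AddCommGroup M] [Module C M], Module.FinitePresentation C M → FinRes C M

/-- A group is regular if its group rings over all regular rings are regular. -/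
def RegularGroup (G : Type v) [Group G] : Prop :=
  ∀ (R : Type u) [Ring R], IsRegular R → IsRegular (MonoidAlgebra R G)

/-- A group is regular coherent if its group rings over all regular rings are regular coherent. -/
def RegularCoherentGroup (G : Type v) [Group G] : Prop :=
  ∀ (R : Type u) [Ring R], IsRegular R → IsRegularCoherent (MonoidAlgebra R G)

/-- A resolution `0 → P₂ → P₁ → P₀ → ℤ → 0` of the trivial module `ℤ` over `ℤ[H]`. -/
structure Resolution (H : Type v) [Group H] (P₀ P₁ P₂ : Type v) [AddCommGroup P₀]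
    [AddCommGroup P₁] [AddCommGroup P₂] [Module (MonoidAlgebra ℤ H) P₀]
    [Module (MonoidAlgebra ℤ H) P₁] [Module (MonoidAlgebra ℤ H) P₂] where
  d₁ : P₁ →ₗ[MonoidAlgebra ℤ H] P₀
  d₂ : P₂ →ₗ[MonoidAlgebra ℤ H] P₁
  ε : P₀ →+ ℤ
  invariant : ∀ (h : H) (x : P₀), ε ((MonoidAlgebra.single h 1 : MonoidAlgebra ℤ H) • x) = ε x
  surjective : Function.Surjective ε
  exact₀ : ∀ x, ε x = 0 ↔ ∃ y, d₁ y = x
  exact₁ : ∀ x, d₁ x = 0 ↔ ∃ y, d₂ y = x
  injective : Function.Injective d₂

/-- A resolution `0 → ℤ[U₂] → ℤ[U₁] → ℤ[U₀] → ℤ → 0` of the trivial module `ℤ` by the permutation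
modules of the `H`-sets `U₂`, `U₁`, `U₀`, where `ℤ[U₀] → ℤ` is the sum of the coefficients. -/
structure PermutationResolution (H : Type v) [Group H] (U₀ U₁ U₂ : Type v) [MulAction H U₀]
    [MulAction H U₁] [MulAction H U₂] where
  d₁ : (U₁ →₀ ℤ) →ₗ[ℤ] (U₀ →₀ ℤ)
  d₂ : (U₂ →₀ ℤ) →ₗ[ℤ] (U₁ →₀ ℤ)
  equivariant₁ : ∀ (h : H) (x : U₁ →₀ ℤ),
    d₁ (x.mapDomain fun u => h • u) = (d₁ x).mapDomain fun u => h • u
  equivariant₂ : ∀ (h : H) (x : U₂ →₀ ℤ),
    d₂ (x.mapDomain fun u => h • u) = (d₂ x).mapDomain fun u => h • u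
  nonempty : Nonempty U₀
  exact₀ : ∀ x : U₀ →₀ ℤ, (x.sum fun _ n => n) = 0 ↔ ∃ y, d₁ y = x
  exact₁ : ∀ x : U₁ →₀ ℤ, d₁ x = 0 ↔ ∃ y, d₂ y = x
  injective : Function.Injective d₂

/-- The smallest class of groups which contains
* the groups `H` of cohomological dimension at most two (there is a projective resolution
  `0 → P₂ → P₁ → P₀ → ℤ → 0` over `ℤ[H]`),
* the regular coherent groups,
* the groups `H` with a resolution `0 → ℤ[U₂] → ℤ[U₁] → ℤ[U₀] → ℤ → 0` by permutation modules (for
  instance the cellular chains of an acyclic `H`-complex of dimension two) such that the stabilizers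
  of the elements of `U₀` are in the class, those of `U₁` are regular coherent and those of `U₂` are
  regular,

and is closed under subgroups and directed unions. -/
inductive TwoDimClass : ∀ (G : Type v) [Group G], Prop
  | cd (H : Type v) [Group H] (P₀ P₁ P₂ : Type v) [AddCommGroup P₀] [AddCommGroup P₁]
      [AddCommGroup P₂] [Module (MonoidAlgebra ℤ H) P₀] [Module (MonoidAlgebra ℤ H) P₁]
      [Module (MonoidAlgebra ℤ H) P₂] (h₀ : Module.Projective (MonoidAlgebra ℤ H) P₀)
      (h₁ : Module.Projective (MonoidAlgebra ℤ H) P₁)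
      (h₂ : Module.Projective (MonoidAlgebra ℤ H) P₂) (P : Resolution H P₀ P₁ P₂) :
      TwoDimClass H
  | coh (H : Type v) [Group H] (hH : RegularCoherentGroup.{u} H) : TwoDimClass H
  | complex (H : Type v) [Group H] (U₀ U₁ U₂ : Type v) [MulAction H U₀] [MulAction H U₁]
      [MulAction H U₂] (P : PermutationResolution H U₀ U₁ U₂)
      (h₀ : ∀ x : U₀, TwoDimClass (MulAction.stabilizer H x))
      (h₁ : ∀ x : U₁, RegularCoherentGroup.{u} (MulAction.stabilizer H x))
      (h₂ : ∀ x : U₂, RegularGroup.{u} (MulAction.stabilizer H x)) : TwoDimClass H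
  | sub (G H : Type v) [Group G] [Group H] (f : H →* G) (hf : Function.Injective f)
      (hG : TwoDimClass G) : TwoDimClass H
  | union (G : Type v) [Group G] (S : Set (Subgroup G)) (hne : S.Nonempty)
      (hdir : DirectedOn (· ≤ ·) S) (hcov : ∀ g : G, ∃ H ∈ S, g ∈ H)
      (hS : ∀ H ∈ S, TwoDimClass H) : TwoDimClass G

/-- The ray condition: for every ray `ρ` of the tree (consecutive vertices are adjacent and there is
no backtracking) the pointwise stabilizer of some initial segment `ρ 0, …, ρ n` lies in the class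
`TwoDimClass`. -/
def RayCondition {G : Type v} [Group G] {V : Type w} [MulAction G V] (T : TreeAction G V) : Prop :=
  ∀ ρ : ℕ → V, (∀ n, T.graph.Adj (ρ n) (ρ (n + 1))) → (∀ n, ρ (n + 2) ≠ ρ n) →
    ∃ n : ℕ, TwoDimClass.{u} ↥(⨅ i : Fin (n + 1), MulAction.stabilizer G (ρ i))

/-- The smallest class of groups which contains the trivial groups and is closed under subgroups,
directed unions and tree actions (without inversions) with the ray condition and with vertex
stabilizers in the class. -/
inductive TreeClass : ∀ (G : Type v) [Group G], Prop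
  | triv (G : Type v) [Group G] [Subsingleton G] : TreeClass G
  | sub (G H : Type v) [Group G] [Group H] (f : H →* G) (hf : Function.Injective f)
      (hG : TreeClass G) : TreeClass H
  | union (G : Type v) [Group G] (S : Set (Subgroup G)) (hne : S.Nonempty)
      (hdir : DirectedOn (· ≤ ·) S) (hcov : ∀ g : G, ∃ H ∈ S, g ∈ H)
      (hS : ∀ H ∈ S, TreeClass H) : TreeClass G
  | tree (G : Type v) [Group G] (V : Type v) [MulAction G V] (T : TreeAction G V)
      (hV : ∀ x : V, TreeClass (MulAction.stabilizer G x))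
      (hR : RayCondition.{u} T) : TreeClass G

theorem FinRes.exists_finProjRes {R : Type u} [Ring R] {M : Type u} [AddCommGroup M] [Module R M]
    (h : FinRes R M) : ∃ n : ℕ, FinProjRes R n M := by
  induction h with
  | proj M h1 h2 => exact ⟨0, h1, h2⟩
  | step M P f h1 h2 h3 _ ih =>
    obtain ⟨n, hn⟩ := ih
    exact ⟨n + 1, P, inferInstance, inferInstance, f, h1, h2, h3, hn⟩

theorem finRes_of_finProjRes {R : Type u} [Ring R] : ∀ (n : ℕ) (M : Type u) [AddCommGroup M]
    [Module R M], FinProjRes R n M → FinRes R M := by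
  intro n
  induction n with
  | zero =>
    intro M _ _ h
    exact FinRes.proj M h.1 h.2
  | succ n ih =>
    intro M _ _ h
    obtain ⟨P, _, _, f, h1, h2, h3, h4⟩ := h
    exact FinRes.step M P f h1 h2 h3 (ih _ h4)

theorem isRegular_iff {R : Type u} [Ring R] :
    IsRegular R ↔ Pool.Agent.Lib.MP_c052b4_al.IsRegularRing R := by
  constructor
  · rintro ⟨h1, h2⟩
    exact ⟨h1, fun M _ _ hM => (h2 M hM).exists_finProjRes⟩
  · rintro ⟨h1, h2⟩
    refine ⟨h1, fun M _ _ hM => ?_⟩
    obtain ⟨n, hn⟩ := h2 M hM
    exact finRes_of_finProjRes n M hn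

theorem regCohGroup_of {G : Type v} [Group G] (h : RegularCoherentGroup.{u} G) :
    RegCohGroup.{u} G := fun R _ hR => regCoh_of_finitePresentation
  fun M _ _ hM => (h R (isRegular_iff.2 hR) M hM).exists_finProjRes

theorem regGroup_of {G : Type v} [Group G] (h : RegularGroup.{u} G) : RegGroup.{u} G :=
  fun R _ hR => isRegular_iff.1 (h R (isRegular_iff.2 hR))

theorem tdcl_of_class {G : Type v} [Group G] (h : TwoDimClass.{u} G) : TDCl.{u} G := by
  induction h with
  | cd H P₀ P₁ P₂ h₀ h₁ h₂ P =>
    exact TDCl.cd_le_two (H := H) (P₀ := P₀) (P₁ := P₁) (P₂ := P₂)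
      ⟨P.d₁, P.d₂, P.ε, P.invariant, P.surjective, P.exact₀, P.exact₁, P.injective⟩
  | coh H hH => exact TDCl.coh H (regCohGroup_of hH)
  | complex H U₀ U₁ U₂ P _ h₁ h₂ ih =>
    exact TDCl.two H U₀ U₁ U₂
      ⟨P.d₁, P.d₂, P.equivariant₁, P.equivariant₂, P.nonempty, P.exact₀, P.exact₁, P.injective⟩
      ih (fun x => regCohGroup_of (h₁ x)) (fun x => regGroup_of (h₂ x))
  | sub G H f hf _ ih => exact TDCl.sub G H f hf ih
  | union G S hne hdir hcov _ ih => exact TDCl.union G S hne hdir hcov ih

theorem rayCondT_of {G : Type v} [Group G] {V : Type w} [MulAction G V] {T : TreeAction G V}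
    (h : RayCondition.{u} T) : RayCondT.{u} T := by
  intro ρ h1 h2
  obtain ⟨n, hn⟩ := h ρ h1 h2
  exact ⟨n, tdcl_of_class hn⟩

theorem ttcl_of_class {G : Type v} [Group G] (h : TreeClass.{u} G) : TTCl.{u} G := by
  induction h with
  | triv G => exact TTCl.triv G
  | sub G H f hf _ ih => exact TTCl.sub G H f hf ih
  | union G S hne hdir hcov _ ih => exact TTCl.union G S hne hdir hcov ih
  | tree G V T _ hR ih => exact TTCl.tree G V T ih (rayCondT_of hR)

theorem hk_of_onto {G : Type v} [Group G] (h : AOneOnto.{u} G) : HK.{u} G := by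
  intro R _ hR
  obtain ⟨A, hA, hs⟩ := h R (isRegular_iff.2 hR)
  exact imA_eq_top_iff.1 (IsAsm1.imA_eq_top (A := A) ⟨hA.1, hA.2⟩ hs)

theorem LowDegreeFJ.onto {G : Type v} [Group G] (h : LowDegreeFJ.{u} G) : AOneOnto.{u} G := by
  intro R _ hR
  obtain ⟨A, hA, hb⟩ := (h R hR).1
  exact ⟨A, hA, hb.2⟩

theorem hb_of_fj {G : Type v} [Group G] (h : LowDegreeFJ.{u} G) : LK.HB.{u} G := by
  refine ⟨hk_of_onto h.onto, fun R _ hR => ?_⟩
  obtain ⟨A, hA, hb⟩ := (h R (isRegular_iff.2 hR)).1
  exact LK.injA_of_bijective hA hb.1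

theorem fj_of_hb {G : Type v} [Group G] (h : LK.HB.{u} G) : LowDegreeFJ.{u} G := by
  intro R _ hR
  have h1 := h.onto.lowDegree R (isRegular_iff.1 hR)
  exact ⟨LK.exists_bijective h1.1 (h.inj R (isRegular_iff.1 hR)), h1.2⟩

/-- **Theorem.** Let the group `G` act on a tree without inversions. Suppose that
* every ray has an initial segment whose pointwise stabilizer lies in `TwoDimClass`,
* every vertex stabilizer lies in `TreeClass` or satisfies `LowDegreeFJ`,
* every edge stabilizer lies in `TreeClass` or satisfies `AOneOnto` (for instance `LowDegreeFJ`).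

Then `G` satisfies `LowDegreeFJ`: for all regular rings `R` the assembly map
`A₁ : K₁(R) ⊕ (G_ab ⊗ K₀(R)) → K₁(R[G])` is bijective, `K₀(R) → K₀(R[G])` is bijective and
`K_{-n}(R[G]) = 0` for `n ≥ 1`. -/
theorem result (G : Type v) [Group G] (V : Type w) [MulAction G V] (T : TreeAction G V)
    (hR : RayCondition.{u} T)
    (hV : ∀ x : V, TreeClass.{u} (MulAction.stabilizer G x) ∨
      LowDegreeFJ.{u} (MulAction.stabilizer G x))
    (hE : ∀ x y : V, T.graph.Adj x y →
      TreeClass.{u} ↥(MulAction.stabilizer G x ⊓ MulAction.stabilizer G y) ∨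
      AOneOnto.{u} ↥(MulAction.stabilizer G x ⊓ MulAction.stabilizer G y)) : LowDegreeFJ.{u} G :=
  fj_of_hb (LK.hb_of_tree_rayT T (rayCondT_of hR)
    (fun x => (hV x).elim (fun h => LK.hb_of_ttcl (ttcl_of_class h)) hb_of_fj)
    fun x y hxy => (hE x y hxy).elim (fun h => (LK.hb_of_ttcl (ttcl_of_class h)).onto) hk_of_onto)

end Pool.Agent.Results.MP_c052b4_al.TreeActions
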